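import Pool.Agent.Helper80.EC_D.Goals

/-!
# MP_ecc237_nt, Part D, packet DFUB
-/

set_option autoImplicit false

open MeasureTheory Filter Topology Set

namespace EC237.PD.PkDFUB

/-- `((ma,mb),(na,nb)) ↦ ((na,ma),(nb,mb))` -/
def ee : (ℤ × ℤ) × (ℤ × ℤ) ≃ (ℤ × ℤ) × (ℤ × ℤ) where
  toFun p := ((p.2.1, p.1.1), (p.2.2, p.1.2))
  invFun p := ((p.1.2, p.2.2), (p.1.1, p.2.1))
  left_inv _ := rfl
  right_inv _ := rfl

theorem thm (h8 : EC237.B8) (h : G_DPN) : EC237.PD.G_DFUB := by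
  intro y hy r hr
  obtain ⟨-, hs, -⟩ := h8 y hy r hr
  have h1 := (ee.hasSum_iff.2 hs.hasSum)
  exact h1.prod_fiberwise (fun p => h y hy r p.1 p.2)

end EC237.PD.PkDFUB
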